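import Mathlib
import Pool.Agent.H416Z.StBridge

set_option autoImplicit false

namespace Pool.Agent.Results.MP_e333c6_mp.ANotDiffeo

open Set

/-- The Sturmian potential: `lam` if the fractional part of `ω + n α` lies in `[1 - α, 1)`,
and `0` otherwise. -/
noncomputable def potential (lam α ω : ℝ) (n : ℤ) : ℝ :=
  if Int.fract (ω + n * α) ∈ Ico (1 - α) 1 then lam else 0

/-- The spectrum of the Sturmian Hamiltonian `(H v)(n) = v(n+1) + v(n-1) + V(n) v(n)` on the space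
of square summable complex sequences: the real numbers `E` for which `H - E` is not a bijection
of that space. -/
def sturmianSpectrum (lam α ω : ℝ) : Set ℝ :=
  {E : ℝ | ¬ ∀ u : ℤ → ℂ, Memℓp u 2 → ∃! v : ℤ → ℂ, Memℓp v 2 ∧
    ∀ n : ℤ, v (n + 1) + v (n - 1) + (potential lam α ω n : ℂ) * v n - (E : ℂ) * v n = u n}

/-- The Gauss map. -/
noncomputable def gauss (x : ℝ) : ℝ := Int.fract x⁻¹

/-- The continued fraction digit `a_{i+1}` of `x = [a_1, a_2, ...]`. -/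
noncomputable def digit (x : ℝ) (i : ℕ) : ℤ := ⌊(gauss^[i] x)⁻¹⌋

/-- The digits of `α` and `β` eventually agree up to a shift by an integer `k`. -/
def TailEquivalent (α β : ℝ) : Prop :=
  ∃ (k : ℤ) (i₀ : ℕ), ∀ i : ℕ, i₀ ≤ i → ∃ j : ℕ, (j : ℤ) = i + k ∧ digit β j = digit α i

/-- Some `C¹` diffeomorphism `f : U → V` between open sets `U ⊇ A`, `V ⊇ B` (with `C¹`
inverse `g`) carries `A` onto `B`. -/
def Diffeomorphic (A B : Set ℝ) : Prop :=
  ∃ U V : Set ℝ, IsOpen U ∧ IsOpen V ∧ A ⊆ U ∧ B ⊆ V ∧ ∃ f g : ℝ → ℝ, MapsTo f U V ∧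
    MapsTo g V U ∧ InvOn g f U V ∧ ContDiffOn ℝ 1 f U ∧ ContDiffOn ℝ 1 g V ∧ f '' A = B

/-- For every coupling there are tail-equivalent irrational frequencies whose Sturmian spectra
(for any phases) are not diffeomorphic. -/
theorem result : ∀ lam : ℝ, 0 < lam → ∃ α β : ℝ, Irrational α ∧ Irrational β ∧
    α ∈ Ioo (0 : ℝ) 1 ∧ β ∈ Ioo (0 : ℝ) 1 ∧ TailEquivalent α β ∧ ∀ ω ω' : ℝ,
      ¬ Diffeomorphic (sturmianSpectrum lam α ω) (sturmianSpectrum lam β ω') := by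
  intro lam hl
  obtain ⟨α, h1, h2, h3⟩ := H416Z.St.main hl.ne'
  have e : ∀ γ ω, potential lam γ ω = H416Z.St.stV lam γ ω := by
    intro γ ω
    ext n
    simp only [potential, H416Z.St.stV, mem_Ico, Int.fract_lt_one, and_true, add_comm]
  have hβ : Irrational (Int.fract α⁻¹) := by
    rw [(H416Z.St.fract_inv h1).2]
    exact h2.inv.sub_natCast 2
  refine ⟨α, Int.fract α⁻¹, h2, hβ, ⟨by linarith [h1.1], by linarith [h1.2]⟩,
    ⟨lt_of_le_of_ne (Int.fract_nonneg _) hβ.ne_zero.symm, Int.fract_lt_one _⟩,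
    ⟨-1, 1, fun i hi => ⟨i - 1, by omega, ?_⟩⟩, fun ω ω' => ?_⟩
  · obtain ⟨j, rfl⟩ : ∃ j, i = j + 1 := ⟨i - 1, by omega⟩
    rfl
  · obtain ⟨H, hH⟩ := H416Z.St.exists_op (H416Z.St.stV_abs lam α ω)
    obtain ⟨H', hH'⟩ := H416Z.St.exists_op (H416Z.St.stV_abs lam (Int.fract α⁻¹) ω')
    rw [sturmianSpectrum, sturmianSpectrum, e, e, ← H416Z.St.rspec_eq hH, ← H416Z.St.rspec_eq hH']
    rintro ⟨U, V, hU, hV, h4, h5, f, g, -, -, h6, h7, h8, h9⟩
    obtain ⟨L, hL⟩ := H416Z.St.bilip_of_diffeo hU hV (H416Z.St.isCompact_rspec H)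
      (H416Z.St.isCompact_rspec H') h4 h5 h7 h8 (fun x hx => h6.1 hx) h9
    exact h3 ω ω' H H' hH hH' L hL

end Pool.Agent.Results.MP_e333c6_mp.ANotDiffeo
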